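import Pool.Agent.Lib.MP_21a058_co.Lim2.Few

/-! MP_21a058_co: the near-minimum cuts without the root are `p ^ 2 + 1` laminar families. -/

set_option linter.unusedSectionVars false
set_option linter.unusedVariables false

namespace Pool.Agent.Lib.MP_21a058_co.Lim2

open Finset
open scoped Classical
open Pool.Agent.Lib.MP_21a058_co.Thin

variable {V E : Type} [Fintype V]

/-- every near-minimum cut is crossed by at most `p ^ 2` near-minimum cuts without the root -/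
theorem atoms_deg (v w : E → V) (r : V) (R : Finset E) {τ : ℕ} (T : Fin τ → Finset E)
    (hTR : ∀ i, T i ⊆ R) (hd : ∀ i j, i ≠ j → Disjoint (T i) (T j))
    (hT : ∀ i, ConnOn v w (T i) univ) (lam u p : ℕ)
    (hlam : ∀ X : Finset V, X.Nonempty → X ≠ univ → lam ≤ (dl v w R X).card)
    (hp : (p + 1) * (lam + p * u) < 2 * τ * p) (Y : Finset V) (hY : Y.Nonempty)
    (hYu : Y ≠ univ) (hYd : (dl v w R Y).card ≤ lam + u) (S : Finset (Finset V))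
    (hr : ∀ Z ∈ S, r ∉ Z)
    (hS : ∀ Z ∈ S, (dl v w R Z).card ≤ lam + u ∧
      (∃ x, x ∈ Z ∧ x ∈ Y) ∧ (∃ x, x ∈ Z ∧ x ∉ Y) ∧ (∃ x, x ∈ Y ∧ x ∉ Z) ∧
      (∃ x, x ∉ Y ∧ x ∉ Z)) : S.card ≤ p * p := by
  obtain ⟨c, hc, hcs⟩ := atoms v w R T hTR hd hT lam u p hlam hp Y hY hYu hYd
  refine few v w r R T hTR hd hT lam u p hp c hc S fun Z hZ => ?_
  obtain ⟨z0, z1, z2, z3, z4⟩ := hS Z hZ
  obtain ⟨x, hx1, hx2⟩ := z1
  have k := hcs Z z0 ⟨x, hx1, hx2⟩ z2 z3 z4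
  exact ⟨⟨x, hx1⟩, hr Z hZ, z0, fun a b hab => ⟨fun h => k a b hab h, fun h => k b a hab.symm h⟩⟩

/-- the near-minimum cuts without the root are `p ^ 2 + 1` laminar families -/
theorem atoms_col (v w : E → V) (r : V) (R : Finset E) {τ : ℕ} (T : Fin τ → Finset E)
    (hTR : ∀ i, T i ⊆ R) (hd : ∀ i j, i ≠ j → Disjoint (T i) (T j))
    (hT : ∀ i, ConnOn v w (T i) univ) (lam u p : ℕ)
    (hlam : ∀ X : Finset V, X.Nonempty → X ≠ univ → lam ≤ (dl v w R X).card)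
    (hp : (p + 1) * (lam + p * u) < 2 * τ * p) :
    ∃ c : Finset V → Fin (p * p + 1), ∀ X Y : Finset V,
      X.Nonempty → r ∉ X → (dl v w R X).card ≤ lam + u →
      Y.Nonempty → r ∉ Y → (dl v w R Y).card ≤ lam + u →
      c X = c Y → X ⊆ Y ∨ Y ⊆ X ∨ Disjoint X Y := by
  obtain ⟨c, hc⟩ := Z.greedy (fun X Y : Finset V => ¬ (X ⊆ Y ∨ Y ⊆ X ∨ Disjoint X Y))
    (fun X Y h h' => h (by
      rcases h' with h' | h' | h'
      · exact Or.inr (Or.inl h')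
      · exact Or.inl h'
      · exact Or.inr (Or.inr h'.symm))) (p * p)
    (univ.filter (fun X : Finset V => X.Nonempty ∧ r ∉ X ∧ (dl v w R X).card ≤ lam + u)) (by
      intro Y hY
      obtain ⟨-, y1, y2, y3⟩ := mem_filter.1 hY
      refine atoms_deg v w r R T hTR hd hT lam u p hlam hp Y y1 (fun h => y2 (h ▸ mem_univ r)) y3 _
        (fun Z hZ => (mem_filter.1 ((@mem_filter _ _ (_) _ _).1 hZ).1).2.2.1) ?_
      intro Z hZ
      obtain ⟨hZ1, -, hZ3⟩ := (@mem_filter _ _ (_) _ _).1 hZ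
      obtain ⟨-, z1, z2, z3⟩ := mem_filter.1 hZ1
      push Not at hZ3
      obtain ⟨k1, k2, k3⟩ := hZ3
      rw [not_subset] at k1 k2
      rw [not_disjoint_iff] at k3
      obtain ⟨x, hx1, hx2⟩ := k1
      obtain ⟨y, hy1, hy2⟩ := k2
      obtain ⟨z, hz1, hz2⟩ := k3
      exact ⟨z3, ⟨z, hz2, hz1⟩, ⟨y, hy1, hy2⟩, ⟨x, hx1, hx2⟩, ⟨r, y2, z2⟩⟩)
  refine ⟨c, fun X Y x1 x2 x3 y1 y2 y3 hXY => ?_⟩
  by_contra hh
  have hne : X ≠ Y := fun h => hh (Or.inl (h ▸ Subset.refl X))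
  exact hc X (mem_filter.2 ⟨mem_univ _, x1, x2, x3⟩) Y (mem_filter.2 ⟨mem_univ _, y1, y2, y3⟩)
    hne hh hXY

end Pool.Agent.Lib.MP_21a058_co.Lim2
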