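import Pool.Agent.Lib.MP_21a058_co.Lim.Comp

/-! MP_21a058_co: crossing components at every scale, with any bound `K` for the number of
members of `N` which are unions of at most `p` classes. -/

set_option linter.unusedSectionVars false
set_option linter.unusedVariables false

namespace Pool.Agent.Lib.MP_21a058_co.Lim2

open Finset Pool.Agent.Lib.MP_21a058_co.Thin
open Pool.Agent.Lib.MP_21a058_co.Lim (Crs rel lk comp mem_comp self_mem_comp comp_ind atom
  mem_atom self_mem_atom atom_eq atom_sub atom_lam atoms_laminar thr)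
open scoped Classical

variable {V E : Type} [Fintype V]

omit [Fintype V] in
/-- disjoint sets whose cuts are all inside `U` -/
theorem sum_dl_le (v w : E → V) (W U : Finset E) (P : Finset (Finset V))
    (hP : ∀ A ∈ P, ∀ B ∈ P, A ≠ B → Disjoint A B) (hU : ∀ A ∈ P, dl v w W A ⊆ U) :
    ∑ A ∈ P, (dl v w W A).card ≤ 2 * U.card := by
  have hone : ∀ x : V, (P.filter (fun A => x ∈ A)).card ≤ 1 := by
    intro x
    rw [card_le_one]
    intro A hA B hB
    by_contra hne
    obtain ⟨hA1, hA2⟩ := mem_filter.1 hA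
    obtain ⟨hB1, hB2⟩ := mem_filter.1 hB
    exact disjoint_left.1 (hP A hA1 B hB1 hne) hA2 hB2
  calc ∑ A ∈ P, (dl v w W A).card ≤
        ∑ A ∈ P, ∑ e ∈ U, (if e ∈ dl v w W A then 1 else 0) := by
        refine sum_le_sum fun A hA => ?_
        rw [← card_filter]
        exact card_le_card fun e he => mem_filter.2 ⟨hU A hA he, he⟩
    _ = ∑ e ∈ U, ∑ A ∈ P, (if e ∈ dl v w W A then 1 else 0) := sum_comm
    _ ≤ ∑ e ∈ U, 2 := by
        refine sum_le_sum fun e _ => ?_
        calc ∑ A ∈ P, (if e ∈ dl v w W A then 1 else 0) ≤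
              ∑ A ∈ P, ((if v e ∈ A then 1 else 0) + (if w e ∈ A then 1 else 0)) := by
              refine sum_le_sum fun A _ => ?_
              by_cases he : e ∈ dl v w W A
              · have h1 := (mem_filter.1 he).2
                by_cases h2 : v e ∈ A
                · simp [he, h2]
                · have h3 : w e ∈ A := by
                    by_contra h3
                    exact h1 ⟨fun h => absurd h h2, fun h => absurd h h3⟩
                  simp [he, h2, h3]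
              · simp [he]
          _ ≤ 2 := by
              rw [sum_add_distrib, ← card_filter, ← card_filter]
              have h1 := hone (v e)
              have h2 := hone (w e)
              omega
    _ = 2 * U.card := by
        rw [sum_const, smul_eq_mul, Nat.mul_comm]

/-- The cut of an atom is covered by the cuts of the members. -/
theorem dl_atom_sub (v w : E → V) (W : Finset E) (C : Finset (Finset V)) (x : V) :
    dl v w W (atom C x) ⊆ C.biUnion (fun Z => dl v w W Z) := by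
  intro e he
  obtain ⟨h1, h2⟩ := mem_filter.1 he
  rw [mem_biUnion]
  by_contra hcon
  push Not at hcon
  have h3 : ∀ Z ∈ C, (v e ∈ Z ↔ w e ∈ Z) := by
    intro Z hZ
    by_contra h4
    exact hcon Z hZ (mem_filter.2 ⟨h1, h4⟩)
  exact h2 ⟨fun h4 => mem_atom.2 fun Z hZ => ((mem_atom.1 h4) Z hZ).trans (h3 Z hZ),
    fun h4 => mem_atom.2 fun Z hZ => ((mem_atom.1 h4) Z hZ).trans (h3 Z hZ).symm⟩

/-- MULTISCALE ATOMS. -/
theorem multi (v w : E → V) (r : V) (W : Finset E) (N : Finset (Finset V)) (p K : ℕ)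
    (hr : ∀ Y ∈ N, r ∉ Y) (hN : ∀ Y ∈ N, Y.Nonempty)
    (hA1 : ∀ Y ∈ N, ∃ c : V → ℕ, (univ.image c).card ≤ p ∧
      (∀ x y, c x = c y → (x ∈ Y ↔ y ∈ Y)) ∧
      ∀ Z ∈ N, ∀ Z' ∈ N, (∀ x y, c x = c y → (x ∈ Z ↔ y ∈ Z)) → Crs Z Z' →
        ∀ x y, c x = c y → (x ∈ Z' ↔ y ∈ Z'))
    (hcnt : ∀ c : V → ℕ, (univ.image c).card ≤ p → ∀ S ⊆ N,
      (∀ Z ∈ S, ∀ x y, c x = c y → (x ∈ Z ↔ y ∈ Z)) → S.card ≤ K) :
    ∃ LL : Finset (Finset V), (∀ A ∈ LL, A.Nonempty ∧ r ∉ A) ∧
      (∀ A ∈ LL, ∀ B ∈ LL, A ⊆ B ∨ B ⊆ A ∨ Disjoint A B) ∧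
      ∀ Y ∈ N, ∃ P ⊆ LL, P.card ≤ p ∧ (∀ A ∈ P, ∀ B ∈ P, A ≠ B → Disjoint A B) ∧
        P.biUnion id = Y ∧ ∑ A ∈ P, (dl v w W A).card ≤ 2 * (K * (dl v w W Y).card) := by
  obtain ⟨f, hf⟩ : ∃ f : Finset V → ℕ, f = fun Z => (dl v w W Z).card := ⟨_, rfl⟩
  obtain ⟨C, hC⟩ : ∃ C : Finset V → Finset (Finset V), C = fun Y => comp (thr N f Y) Y :=
    ⟨_, rfl⟩
  have hthr : ∀ Y ∈ N, Y ∈ thr N f Y := fun Y hY => mem_filter.2 ⟨hY, le_refl _⟩
  have hself : ∀ Y ∈ N, Y ∈ C Y := by
    intro Y hY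
    rw [hC]
    exact self_mem_comp (hthr Y hY)
  have hCN : ∀ Y, ∀ Z ∈ C Y, Z ∈ N ∧ f Z ≤ f Y := by
    intro Y Z hZ
    rw [hC] at hZ
    exact mem_filter.1 (mem_comp.1 hZ).1
  refine ⟨N.biUnion (fun Y => ((C Y).biUnion id).image (atom (C Y))), ?_, ?_, ?_⟩
  · intro A hA
    obtain ⟨Y, hY, hA⟩ := mem_biUnion.1 hA
    obtain ⟨x, hx, rfl⟩ := mem_image.1 hA
    obtain ⟨Z, hZ, hxZ⟩ := mem_biUnion.1 hx
    exact ⟨⟨x, self_mem_atom _ _⟩, fun h => hr Z (hCN Y Z hZ).1 (atom_sub hZ hxZ h)⟩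
  · intro A hA B hB
    obtain ⟨Y, hY, hA⟩ := mem_biUnion.1 hA
    obtain ⟨x, hx, rfl⟩ := mem_image.1 hA
    obtain ⟨Z, hZ, hxZ⟩ := mem_biUnion.1 hx
    obtain ⟨Y', hY', hB⟩ := mem_biUnion.1 hB
    obtain ⟨x', hx', rfl⟩ := mem_image.1 hB
    obtain ⟨Z', hZ', hxZ'⟩ := mem_biUnion.1 hx'
    rcases le_total (f Y) (f Y') with h | h
    · have hF : thr N f Y ⊆ thr N f Y' := fun Q hQ =>
        mem_filter.2 ⟨(mem_filter.1 hQ).1, (mem_filter.1 hQ).2.trans h⟩
      rw [hC] at hZ hZ' ⊢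
      exact atoms_laminar hF ⟨Z, hZ, hxZ⟩ ⟨Z', hZ', hxZ'⟩
    · have hF : thr N f Y' ⊆ thr N f Y := fun Q hQ =>
        mem_filter.2 ⟨(mem_filter.1 hQ).1, (mem_filter.1 hQ).2.trans h⟩
      rw [hC] at hZ hZ' ⊢
      rcases atoms_laminar hF ⟨Z', hZ', hxZ'⟩ ⟨Z, hZ, hxZ⟩ with h1 | h1 | h1
      · exact Or.inr (Or.inl h1)
      · exact Or.inl h1
      · exact Or.inr (Or.inr h1.symm)
  · intro Y hY
    obtain ⟨c, hc1, hc2, hc3⟩ := hA1 Y hY
    -- all members of the component are unions of classes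
    have hcl : ∀ Z ∈ C Y, ∀ x y, c x = c y → (x ∈ Z ↔ y ∈ Z) := by
      have h0 := hself Y hY
      have hN' := hCN Y
      rw [hC] at h0 hN' ⊢
      refine comp_ind (fun Z => ∀ x y, c x = c y → (x ∈ Z ↔ y ∈ Z)) h0 hc2 ?_
      intro A hA B hB hPA hAB
      exact hc3 A (hN' A hA).1 B (hN' B hB).1 hPA hAB
    have hat : ∀ x y, c x = c y → atom (C Y) x = atom (C Y) y := by
      intro x y hxy
      exact (atom_eq (mem_atom.2 fun Z hZ => hcl Z hZ x y hxy)).symm
    have hcardC : (C Y).card ≤ K :=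
      hcnt c hc1 (C Y) (fun Z hZ => (hCN Y Z hZ).1) hcl
    refine ⟨Y.image (atom (C Y)), ?_, ?_, ?_, ?_, ?_⟩
    · intro A hA
      obtain ⟨x, hx, rfl⟩ := mem_image.1 hA
      exact mem_biUnion.2 ⟨Y, hY, mem_image.2 ⟨x, mem_biUnion.2 ⟨Y, hself Y hY, hx⟩, rfl⟩⟩
    · -- few atoms
      have h1 : (Y.image (atom (C Y))).card ≤ (Y.image c).card := by
        refine card_le_card_of_surjOn (fun i => if h : ∃ x, c x = i then
          atom (C Y) (Classical.choose h) else ∅) ?_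
        intro A hA
        obtain ⟨x, hx, rfl⟩ := mem_image.1 hA
        refine ⟨c x, mem_image_of_mem c hx, ?_⟩
        have h : ∃ y, c y = c x := ⟨x, rfl⟩
        show (if h : ∃ y, c y = c x then atom (C Y) (Classical.choose h) else ∅) = _
        rw [dif_pos h]
        exact hat _ _ (Classical.choose_spec h)
      exact h1.trans ((card_le_card (image_subset_image (subset_univ _))).trans hc1)
    · intro A hA B hB hAB
      obtain ⟨x, hx, rfl⟩ := mem_image.1 hA
      obtain ⟨y, hy, rfl⟩ := mem_image.1 hB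
      rcases atom_lam (C Y) x y with h | h
      · exact absurd h hAB
      · exact h
    · ext x
      rw [mem_biUnion]
      constructor
      · rintro ⟨A, hA, hx⟩
        obtain ⟨y, hy, rfl⟩ := mem_image.1 hA
        exact atom_sub (hself Y hY) hy hx
      · intro hx
        exact ⟨atom (C Y) x, mem_image_of_mem _ hx, self_mem_atom _ _⟩
    · have h0 : ∑ A ∈ Y.image (atom (C Y)), (dl v w W A).card ≤
          2 * ((C Y).biUnion (fun Z => dl v w W Z)).card := by
        refine sum_dl_le v w W _ _ ?_ ?_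
        · intro A hA B hB hAB
          obtain ⟨x, hx, rfl⟩ := mem_image.1 hA
          obtain ⟨y, hy, rfl⟩ := mem_image.1 hB
          rcases atom_lam (C Y) x y with h | h
          · exact absurd h hAB
          · exact h
        · intro A hA
          obtain ⟨x, hx, rfl⟩ := mem_image.1 hA
          exact dl_atom_sub v w W (C Y) x
      have h1 : ((C Y).biUnion (fun Z => dl v w W Z)).card ≤ ∑ Z ∈ C Y, (dl v w W Z).card :=
        card_biUnion_le
      have h2 : ∑ Z ∈ C Y, (dl v w W Z).card ≤ ∑ Z ∈ C Y, (dl v w W Y).card := by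
        refine sum_le_sum fun Z hZ => ?_
        have := (hCN Y Z hZ).2
        rw [hf] at this
        exact this
      rw [sum_const, smul_eq_mul] at h2
      have h3 := Nat.mul_le_mul_right (dl v w W Y).card hcardC
      omega

end Pool.Agent.Lib.MP_21a058_co.Lim2
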