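import Mathlib

/-! MP_21a058_co, the limit form with polynomial constants: the choice of the constants. -/

namespace Pool.Agent.Lib.MP_21a058_co.Lim2

/-- All side conditions on the constants. `p` bounds the number of atoms, `mo` the number of
colours, `A0 = 2 p ^ 2`; the unit is `H ≥ H0`, the graph has all cuts at least `2 M H`, blocks
have `B1 H` edges, `M = B1 ^ 2`; the start costs `E H` trees, `X H` trees are released in a
round, `Th H` trees are given up for strong pieces and the error of a round is `Th H`; small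
blocks and cuts have at most `c` fractional edges. -/
structure Nums (n p mo A0 B1 M E X Th C9 c H0 : ℕ) : Prop where
  hn : 1 ≤ n
  hp : p = 4 * n
  hmo : mo = p * p + 1
  hA0 : A0 = 2 * (p * p)
  hB1 : 1 ≤ B1
  hM : M = B1 * B1
  hE : n * E = M
  hX : 2 ≤ X
  hXM : 16 * (n * n) * X = M
  hTh : 1 ≤ Th
  hd : 3 * n * (Th + 1) ≤ X
  hnear : 2 * M + p * (p + 1) * (X + 1) < p * E
  heps : 2 * M * (A0 * (4 * B1 + 1)) ≤ Th * Th
  hC9 : C9 = 2 * mo * M
  hc : c = 64 + 16 * C9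
  hH0 : H0 = 48 * mo + 4 * c + 4

/-- The choice of the constants. -/
theorem exists_nums (n : ℕ) (hn : 1 ≤ n) :
    ∃ p mo A0 B1 M E X Th C9 c H0 : ℕ, B1 = 2949120 * n ^ 8 ∧
      Nums n p mo A0 B1 M E X Th C9 c H0 := by
  obtain ⟨p, hp⟩ : ∃ p, p = 4 * n := ⟨_, rfl⟩
  obtain ⟨A0, hA0⟩ : ∃ A0, A0 = 2 * (p * p) := ⟨_, rfl⟩
  have hA1 : 1 ≤ A0 := by
    rw [hA0]
    exact Nat.mul_pos (by omega) (Nat.mul_pos (by omega) (by omega))
  have hn2 : 1 ≤ n * n := Nat.mul_pos hn hn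
  obtain ⟨G, hG⟩ : ∃ G, G = A0 * (n * n * (n * n)) := ⟨_, rfl⟩
  have hG1 : 1 ≤ G := by
    rw [hG]
    exact Nat.mul_pos hA1 (Nat.mul_pos hn2 hn2)
  obtain ⟨B, hB⟩ : ∃ B, B = 92160 * (n * n) * G := ⟨_, rfl⟩
  have hB1 : 1 ≤ B := by
    rw [hB]
    exact Nat.mul_pos (by omega) hG1
  have hGB : 1 ≤ G * B := Nat.mul_pos hG1 hB1
  have hnG : n ≤ G * B := by
    have e1 : n ≤ B := by
      rw [hB]
      have e2 : 92160 * (n * n) * G = n * (92160 * n * G) := by ring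
      rw [e2]
      exact Nat.le_mul_of_pos_right _ (Nat.mul_pos (by omega) hG1)
    exact e1.trans (Nat.le_mul_of_pos_left _ hG1)
  have hBB : B * B = 92160 * (n * n) * (G * B) := by
    have : B * B = 92160 * (n * n) * G * B := congrArg (· * B) hB
    rw [this]
    ring
  refine ⟨p, p * p + 1, A0, B, B * B, 92160 * n * (G * B), 5760 * (G * B),
    960 * A0 * (n * n * n) * B, 2 * (p * p + 1) * (B * B),
    64 + 16 * (2 * (p * p + 1) * (B * B)),
    48 * (p * p + 1) + 4 * (64 + 16 * (2 * (p * p + 1) * (B * B))) + 4, ?_, ?_⟩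
  · rw [hB, hG, hA0, hp]
    ring
  refine ⟨hn, hp, rfl, hA0, hB1, rfl, ?_, ?_, ?_, ?_, ?_, ?_, ?_, rfl, rfl, rfl⟩
  · rw [hBB]
    ring
  · omega
  · rw [hBB]
    ring
  · exact Nat.mul_pos (Nat.mul_pos (Nat.mul_pos (by omega) hA1) (Nat.mul_pos hn2 hn)) hB1
  · have e1 : 3 * n * (960 * A0 * (n * n * n) * B + 1) = 2880 * (G * B) + 3 * n := by
      rw [hG]
      ring
    rw [e1]
    omega
  · rw [hBB, hp]
    have e1 : 4 * n * (92160 * n * (G * B)) = 368640 * (n * n * (G * B)) := by ring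
    have e2 : 2 * (92160 * (n * n) * (G * B)) = 184320 * (n * n * (G * B)) := by ring
    have e3 : 4 * n * (4 * n + 1) * (5760 * (G * B) + 1) =
        92160 * (n * n * (G * B)) + 23040 * (n * (G * B)) + 16 * (n * n) + 4 * n := by ring
    have e4 : n * (G * B) ≤ n * n * (G * B) := by
      refine Nat.mul_le_mul_right _ ?_
      exact Nat.le_mul_of_pos_right _ hn
    have e5 : n * n ≤ n * n * (G * B) := Nat.le_mul_of_pos_right _ hGB
    have e6 : n ≤ n * n := Nat.le_mul_of_pos_right _ hn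
    have e7 : 1 ≤ n * n * (G * B) := Nat.mul_pos hn2 hGB
    rw [e1, e2, e3]
    omega
  · have e1 : 2 * (B * B) * (A0 * (4 * B + 1)) = 8 * (A0 * (B * B * B)) + 2 * (A0 * (B * B)) := by
      ring
    have e2 : 960 * A0 * (n * n * n) * B * (960 * A0 * (n * n * n) * B) =
        10 * (A0 * (92160 * (n * n) * (A0 * (n * n * (n * n))) * (B * B))) := by ring
    have e3 : A0 * (B * B) ≤ A0 * (B * B * B) :=
      Nat.mul_le_mul_left _ (Nat.le_mul_of_pos_right _ hB1)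
    have e4 : A0 * (B * B * B) = A0 * (B * (B * B)) := by ring
    rw [e1, e2, ← hG, ← hB, ← e4]
    omega

/-- The size of the constants. -/
theorem nums_size {n p mo A0 B1 M E X Th C9 c H0 : ℕ}
    (h : Nums n p mo A0 B1 M E X Th C9 c H0) (hM1 : 1 ≤ M) (hB : B1 = 2949120 * n ^ 8) :
    2 * (M * H0) + 2 * M + 2 ≤ 2 ^ 105 * n ^ 34 := by
  have hn := h.hn
  have hM : M ≤ 2 ^ 44 * n ^ 16 := by
    rw [h.hM, hB]
    calc 2949120 * n ^ 8 * (2949120 * n ^ 8) ≤ 2 ^ 22 * n ^ 8 * (2 ^ 22 * n ^ 8) := by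
          refine Nat.mul_le_mul ?_ ?_ <;> exact Nat.mul_le_mul_right _ (by norm_num)
      _ = 2 ^ 44 * n ^ 16 := by ring
  have hmo : mo ≤ 32 * n ^ 2 := by
    have h1 : 1 ≤ n ^ 2 := Nat.one_le_pow _ _ hn
    rw [h.hmo, h.hp]
    have e : 4 * n * (4 * n) = 16 * n ^ 2 := by ring
    omega
  have hmo1 : 1 ≤ mo := by
    rw [h.hmo]
    exact Nat.le_add_left 1 _
  have hH0 : H0 ≤ 512 * (mo * M) := by
    have e1 : H0 = 48 * mo + 260 + 128 * (mo * M) := by
      rw [h.hH0, h.hc, h.hC9]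
      ring
    have e2 : mo ≤ mo * M := Nat.le_mul_of_pos_right _ hM1
    omega
  have hMH : M * H0 ≤ 2 ^ 102 * n ^ 34 := by
    calc M * H0 ≤ 2 ^ 44 * n ^ 16 * (512 * (32 * n ^ 2 * (2 ^ 44 * n ^ 16))) :=
          Nat.mul_le_mul hM (hH0.trans (Nat.mul_le_mul_left _ (Nat.mul_le_mul hmo hM)))
      _ = 2 ^ 102 * n ^ 34 := by ring
  have h34 : 1 ≤ n ^ 34 := Nat.one_le_pow _ _ hn
  have hMM : M ≤ 2 ^ 102 * n ^ 34 :=
    hM.trans (Nat.mul_le_mul (by norm_num) (Nat.pow_le_pow_right hn (by norm_num)))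
  have e5 : 2 ^ 105 * n ^ 34 = 8 * (2 ^ 102 * n ^ 34) := by ring
  rw [e5]
  have h106 : 1 ≤ 2 ^ 102 * n ^ 34 := Nat.mul_pos (by norm_num) h34
  omega

end Pool.Agent.Lib.MP_21a058_co.Lim2
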