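import Pool.Agent.Lib.MP_21a058_co.Lim.Closed

/-! MP_21a058_co: there are at most `p ^ 2` near-minimum cuts (without the root) which are unions
of classes of a partition into at most `p` classes. A near-minimum cut is crossed exactly once by
many of the trees, and the cuts which one tree crosses exactly once are independent. -/

set_option linter.unusedSectionVars false
set_option linter.unusedVariables false

namespace Pool.Agent.Lib.MP_21a058_co.Lim2

open Finset
open scoped Classical
open Pool.Agent.Lib.MP_21a058_co.Thin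

variable {V E : Type} [Fintype V]

theorem mem_dl {v w : E → V} {B : Finset E} {X : Finset V} {e : E} :
    e ∈ dl v w B X ↔ e ∈ B ∧ ¬ (v e ∈ X ↔ w e ∈ X) := by
  unfold dl
  rw [mem_filter]

/-- a connected spanning edge set crosses every nonempty set without the root -/
theorem cross {v w : E → V} {T : Finset E} (hT : ConnOn v w T univ) {r : V} {X : Finset V}
    (hX : X.Nonempty) (hr : r ∉ X) : (dl v w T X).Nonempty := by
  obtain ⟨x, hx⟩ := hX
  obtain ⟨e, he, -, -, h⟩ := hT X ⟨x, mem_univ _, hx⟩ ⟨r, mem_univ _, hr⟩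
  exact ⟨e, mem_dl.2 ⟨he, h⟩⟩

/-- the sets crossed exactly once by one tree: a common edge means the same set -/
theorem one_edge {v w : E → V} {T : Finset E} (hT : ConnOn v w T univ) {r : V}
    {Z Z' : Finset V} (hr : r ∉ Z) (hr' : r ∉ Z') (hZ : (dl v w T Z).card = 1)
    (hZ' : (dl v w T Z').card = 1) {e : E} (he : e ∈ dl v w T Z) (he' : e ∈ dl v w T Z') :
    Z = Z' := by
  by_contra hne
  have h1 : dl v w T Z = {e} := by
    obtain ⟨a, ha⟩ := card_eq_one.1 hZ
    rw [ha, mem_singleton] at he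
    rw [ha, he]
  have h2 : dl v w T Z' = {e} := by
    obtain ⟨a, ha⟩ := card_eq_one.1 hZ'
    rw [ha, mem_singleton] at he'
    rw [ha, he']
  have hD : ∃ D : Finset V, D = (Z \ Z') ∪ (Z' \ Z) := ⟨_, rfl⟩
  obtain ⟨D, hD⟩ := hD
  have hmem : ∀ x, x ∈ D ↔ ¬ (x ∈ Z ↔ x ∈ Z') := by
    intro x
    rw [hD, mem_union, mem_sdiff, mem_sdiff]
    tauto
  have hDne : D.Nonempty := by
    by_contra hh
    rw [not_nonempty_iff_eq_empty] at hh
    refine hne (Finset.ext fun x => ?_)
    by_contra h3
    have := (hmem x).2 h3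
    rw [hh] at this
    exact notMem_empty _ this
  have hDr : r ∉ D := by
    rw [hmem]
    push Not
    exact ⟨fun h => absurd h hr, fun h => absurd h hr'⟩
  obtain ⟨f, hf⟩ := cross hT hDne hDr
  rw [mem_dl, hmem, hmem] at hf
  obtain ⟨hfT, hf⟩ := hf
  have h3 : f ∈ dl v w T Z ↔ f ∈ dl v w T Z' := by rw [h1, h2]
  rw [mem_dl, mem_dl] at h3
  tauto

/-- **one tree**: at most `p` sets without the root are unions of classes and crossed exactly
once -/
theorem one_tree (v w : E → V) (r : V) {T : Finset E} (hT : ConnOn v w T univ) (p : ℕ)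
    (c : V → ℕ) (hc : (univ.image c).card ≤ p) (S : Finset (Finset V))
    (hr : ∀ Z ∈ S, r ∉ Z) (hU : ∀ Z ∈ S, Un c Z) (h1 : ∀ Z ∈ S, (dl v w T Z).card = 1) :
    S.card ≤ p := by
  have key : LinearIndependent ℚ (fun Z : {Z // Z ∈ S} =>
      (fun a : {a // a ∈ univ.image c} => if ∃ x ∈ Z.1, c x = a.1 then (1 : ℚ) else 0)) := by
    rw [linearIndependent_iff']
    intro s g hg Z0 hZ0
    obtain ⟨e, he⟩ := card_eq_one.1 (h1 Z0.1 Z0.2)
    have heZ : e ∈ dl v w T Z0.1 := by rw [he]; exact mem_singleton_self _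
    have hval : ∀ x : V, ∀ Z : {Z // Z ∈ S}, (∃ y ∈ Z.1, c y = c x) ↔ x ∈ Z.1 := by
      intro x Z
      constructor
      · rintro ⟨y, hy, hyx⟩
        exact (hU Z.1 Z.2 y x hyx).1 hy
      · intro hx
        exact ⟨x, hx, rfl⟩
    have hev : ∀ x : V, ∑ Z ∈ s, g Z * (if x ∈ Z.1 then (1 : ℚ) else 0) = 0 := by
      intro x
      have h2 := congrFun hg ⟨c x, mem_image_of_mem c (mem_univ x)⟩
      rw [Finset.sum_apply] at h2
      refine Eq.trans (sum_congr rfl fun Z _ => ?_) h2
      show _ = g Z * (if ∃ y ∈ Z.1, c y = c x then (1 : ℚ) else 0)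
      by_cases hx : x ∈ Z.1
      · rw [if_pos hx, if_pos ((hval x Z).2 hx)]
      · rw [if_neg hx, if_neg (fun h => hx ((hval x Z).1 h))]
    have h3 := congrArg₂ (fun a b : ℚ => a - b) (hev (v e)) (hev (w e))
    simp only [← sum_sub_distrib, sub_zero] at h3
    rw [sum_eq_single_of_mem Z0 hZ0] at h3
    · have h4 := (mem_dl.1 heZ).2
      by_cases hv : v e ∈ Z0.1
      · have hw : w e ∉ Z0.1 := fun h => h4 ⟨fun _ => h, fun _ => hv⟩
        rw [if_pos hv, if_neg hw] at h3
        linarith
      · have hw : w e ∈ Z0.1 := by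
          by_contra h
          exact h4 ⟨fun h' => absurd h' hv, fun h' => absurd h' h⟩
        rw [if_neg hv, if_pos hw] at h3
        linarith
    · intro Z hZ hne
      have h4 : e ∉ dl v w T Z.1 := by
        intro h5
        exact hne (Subtype.ext (one_edge hT (hr _ Z.2) (hr _ Z0.2) (h1 _ Z.2) (h1 _ Z0.2)
          h5 heZ))
      have h5 : (v e ∈ Z.1 ↔ w e ∈ Z.1) := by
        by_contra h
        exact h4 (mem_dl.2 ⟨(mem_dl.1 heZ).1, h⟩)
      by_cases hv : v e ∈ Z.1
      · rw [if_pos hv, if_pos (h5.1 hv)]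
        ring
      · rw [if_neg hv, if_neg (fun h => hv (h5.2 h))]
        ring
  have h2 := key.fintype_card_le_finrank
  rw [Module.finrank_fintype_fun_eq_card, Fintype.card_coe, Fintype.card_coe] at h2
  exact h2.trans hc

/-- **few near-minimum cuts are unions of classes** -/
theorem few (v w : E → V) (r : V) (R : Finset E) {τ : ℕ} (T : Fin τ → Finset E)
    (hTR : ∀ i, T i ⊆ R) (hd : ∀ i j, i ≠ j → Disjoint (T i) (T j))
    (hT : ∀ i, ConnOn v w (T i) univ) (lam u p : ℕ)
    (hp : (p + 1) * (lam + p * u) < 2 * τ * p) (c : V → ℕ) (hc : (univ.image c).card ≤ p)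
    (S : Finset (Finset V)) (hS : ∀ Z ∈ S, Z.Nonempty ∧ r ∉ Z ∧
      (dl v w R Z).card ≤ lam + u ∧ Un c Z) : S.card ≤ p * p := by
  have hp0 : 1 ≤ p := by
    rcases Nat.eq_zero_or_pos p with h0 | h0
    · subst h0
      simp at hp
    · exact h0
  have hτ0 : 1 ≤ τ := by
    rcases Nat.eq_zero_or_pos τ with h0 | h0
    · subst h0
      simp at hp
    · exact h0
  -- trees which cross exactly once
  have h1 : ∀ Z ∈ S, 2 * τ ≤ lam + u +
      (univ.filter (fun i => (dl v w (T i) Z).card = 1)).card := by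
    intro Z hZ
    obtain ⟨z1, z2, z3, z4⟩ := hS Z hZ
    have e1 : ∑ i, (dl v w (T i) Z).card ≤ (dl v w R Z).card := by
      rw [← card_biUnion]
      · refine card_le_card fun e he => ?_
        obtain ⟨i, -, he⟩ := mem_biUnion.1 he
        exact mem_dl.2 ⟨hTR i (mem_dl.1 he).1, (mem_dl.1 he).2⟩
      · intro i _ j _ hij
        show Disjoint (dl v w (T i) Z) (dl v w (T j) Z)
        rw [disjoint_left]
        intro e he he'
        exact disjoint_left.1 (hd i j hij) (mem_dl.1 he).1 (mem_dl.1 he').1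
    have e2 : ∑ i : Fin τ, 2 ≤ ∑ i, ((dl v w (T i) Z).card +
        if (dl v w (T i) Z).card = 1 then 1 else 0) := by
      refine sum_le_sum fun i _ => ?_
      have h2 := (cross (hT i) z1 z2).card_pos
      split_ifs with h3 <;> omega
    rw [sum_const, card_univ, Fintype.card_fin, smul_eq_mul, sum_add_distrib, ← card_filter]
      at e2
    omega
  have h2 : ∑ Z ∈ S, (univ.filter (fun i => (dl v w (T i) Z).card = 1)).card ≤ τ * p := by
    have e1 : ∑ Z ∈ S, (univ.filter (fun i => (dl v w (T i) Z).card = 1)).card =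
        ∑ i : Fin τ, (S.filter (fun Z => (dl v w (T i) Z).card = 1)).card := by
      simp only [card_filter]
      exact sum_comm
    rw [e1]
    have e2 : ∑ i : Fin τ, (S.filter (fun Z => (dl v w (T i) Z).card = 1)).card ≤
        ∑ i : Fin τ, p := by
      refine sum_le_sum fun i _ => one_tree v w r (hT i) p c hc _ ?_ ?_ ?_
      · intro Z hZ
        exact (hS Z (mem_filter.1 hZ).1).2.1
      · intro Z hZ
        exact (hS Z (mem_filter.1 hZ).1).2.2.2
      · intro Z hZ
        exact (mem_filter.1 hZ).2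
    rw [sum_const, card_univ, Fintype.card_fin, smul_eq_mul] at e2
    exact e2
  have h3 : S.card * (2 * τ) ≤ S.card * (lam + u) + τ * p := by
    have e1 : ∑ Z ∈ S, 2 * τ ≤ ∑ Z ∈ S, (lam + u +
      (univ.filter (fun i => (dl v w (T i) Z).card = 1)).card) := sum_le_sum h1
    rw [sum_const, smul_eq_mul, sum_add_distrib, sum_const, smul_eq_mul] at e1
    omega
  -- numbers
  have h4 : (p + 1) * (lam + u) ≤ (p + 1) * (lam + p * u) := by
    refine Nat.mul_le_mul_left _ ?_
    have := Nat.le_mul_of_pos_left u (show 0 < p by omega)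
    omega
  have h5 : S.card * ((p + 1) * (lam + u)) ≤ S.card * (2 * τ * p) :=
    Nat.mul_le_mul_left _ (by omega)
  have h6 : (p + 1) * (S.card * (2 * τ)) ≤ (p + 1) * (S.card * (lam + u) + τ * p) :=
    Nat.mul_le_mul_left _ h3
  have h7 : τ * (2 * S.card) ≤ τ * (p * (p + 1)) := by
    have e1 : (p + 1) * (S.card * (2 * τ)) = S.card * (2 * τ * p) + τ * (2 * S.card) := by ring
    have e2 : (p + 1) * (S.card * (lam + u) + τ * p) =
        S.card * ((p + 1) * (lam + u)) + τ * (p * (p + 1)) := by ring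
    omega
  have h8 : 2 * S.card ≤ p * (p + 1) := Nat.le_of_mul_le_mul_left h7 hτ0
  have h9 : p * (p + 1) = p * p + p := by ring
  have h10 : p ≤ p * p := Nat.le_mul_of_pos_left p hp0
  omega

end Pool.Agent.Lib.MP_21a058_co.Lim2
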