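import Pool.Agent.Lib.MP_21a058_co.Lim2.Consts

/-! MP_21a058_co, the limit form: the constants of Lim2/Consts satisfy the side conditions of the
selection, of the round and of the atoms, for every unit `H ≥ H0`. -/

namespace Pool.Agent.Lib.MP_21a058_co.Lim2

variable {n p mo A0 B1 M E X Th C9 c H0 : ℕ}

theorem Nums.c_le (h : Nums n p mo A0 B1 M E X Th C9 c H0) {H : ℕ} (hH : H0 ≤ H) :
    4 * c + 4 ≤ H := by
  have := h.hH0
  omega

theorem Nums.mo_le (h : Nums n p mo A0 B1 M E X Th C9 c H0) {H : ℕ} (hH : H0 ≤ H) :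
    48 * mo ≤ H := by
  have := h.hH0
  omega

theorem Nums.pos (h : Nums n p mo A0 B1 M E X Th C9 c H0) {H : ℕ} (hH : H0 ≤ H) : 1 ≤ H := by
  have := h.hH0
  omega

theorem Nums.c9 (h : Nums n p mo A0 B1 M E X Th C9 c H0) : 16 + 4 * C9 ≤ c + 1 := by
  have := h.hc
  omega

theorem Nums.rows (h : Nums n p mo A0 B1 M E X Th C9 c H0) {H t : ℕ} (ht : t ≤ M * H) :
    2 * mo * t ≤ C9 * H := by
  rw [h.hC9]
  calc 2 * mo * t ≤ 2 * mo * (M * H) := Nat.mul_le_mul_left _ ht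
    _ = 2 * mo * M * H := by ring

/-- the numbers of the selection -/
theorem Nums.sel_num (h : Nums n p mo A0 B1 M E X Th C9 c H0) {H t w : ℕ} (ht : t ≤ M * H)
    (hw : t + Th * H ≤ w) :
    2 * (p * p) * Th * (2 * (B1 * H) * (B1 * H) + B1 * H * H + 2 * H * t) ≤
      A0 * (4 * B1 + 1) * (B1 * H) * (w - t) := by
  have h1 : Th * H ≤ w - t := by omega
  have h2 : 2 * H * t ≤ 2 * H * (B1 * B1 * H) := by
    refine Nat.mul_le_mul_left _ ?_
    rw [← h.hM]
    exact ht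
  rw [← h.hA0]
  calc A0 * Th * (2 * (B1 * H) * (B1 * H) + B1 * H * H + 2 * H * t)
      ≤ A0 * Th * (2 * (B1 * H) * (B1 * H) + B1 * H * H + 2 * H * (B1 * B1 * H)) :=
        Nat.mul_le_mul_left _ (Nat.add_le_add_left h2 _)
    _ = A0 * (4 * B1 + 1) * (B1 * H) * (Th * H) := by ring
    _ ≤ _ := Nat.mul_le_mul_left _ h1

/-- the error of a round -/
theorem Nums.eps (h : Nums n p mo A0 B1 M E X Th C9 c H0) {H m : ℕ} (hm : m ≤ M * H) :
    2 * m * (A0 * (4 * B1 + 1)) ≤ Th * (Th * H) := by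
  calc 2 * m * (A0 * (4 * B1 + 1)) ≤ 2 * (M * H) * (A0 * (4 * B1 + 1)) :=
        Nat.mul_le_mul_right _ (Nat.mul_le_mul_left _ hm)
    _ = 2 * M * (A0 * (4 * B1 + 1)) * H := by ring
    _ ≤ Th * Th * H := Nat.mul_le_mul_right _ h.heps
    _ = Th * (Th * H) := by ring

/-- the number of atoms -/
theorem Nums.near (h : Nums n p mo A0 B1 M E X Th C9 c H0) {H lam tau : ℕ} (hH : 1 ≤ H)
    (hlam : lam ≤ 2 * (M * H)) (htau : lam + E * H ≤ 2 * tau) :
    (p + 1) * (lam + p * ((X + 1) * H)) < 2 * tau * p := by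
  have h1 : (2 * M + p * (p + 1) * (X + 1)) * H < p * E * H :=
    Nat.mul_lt_mul_of_pos_right h.hnear hH
  have h2 : (lam + E * H) * p ≤ 2 * tau * p := Nat.mul_le_mul_right _ htau
  have e1 : (p + 1) * (lam + p * ((X + 1) * H)) =
      p * lam + lam + p * (p + 1) * (X + 1) * H := by ring
  have e2 : (2 * M + p * (p + 1) * (X + 1)) * H =
      2 * (M * H) + p * (p + 1) * (X + 1) * H := by ring
  have e3 : (lam + E * H) * p = p * lam + p * E * H := by ring
  rw [e1]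
  rw [e2] at h1
  rw [e3] at h2
  omega

theorem Nums.nE (h : Nums n p mo A0 B1 M E X Th C9 c H0) : n * E ≤ M := le_of_eq h.hE

theorem Nums.nX (h : Nums n p mo A0 B1 M E X Th C9 c H0) : n * X ≤ M := by
  have h1 : n * X ≤ 16 * (n * n) * X := by
    refine Nat.mul_le_mul_right _ ?_
    have := Nat.le_mul_of_pos_right n h.hn
    omega
  exact h1.trans (le_of_eq h.hXM)

theorem Nums.M_pos (h : Nums n p mo A0 B1 M E X Th C9 c H0) : 1 ≤ M := by
  rw [h.hM]
  exact Nat.mul_pos h.hB1 h.hB1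

theorem Nums.H0_pos (h : Nums n p mo A0 B1 M E X Th C9 c H0) : 1 ≤ H0 := by
  have := h.hH0
  omega

end Pool.Agent.Lib.MP_21a058_co.Lim2
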