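import Pool.Agent.Lib.MP_21a058_co.Lim.Rounds
import Pool.Agent.Lib.MP_21a058_co.Lim.Num
import Pool.Agent.Lib.MP_21a058_co.Lim2.Consts

/-! MP_21a058_co, the limit form: from the selection to `LimAll`. -/

set_option autoImplicit false

namespace Pool.Agent.Lib.MP_21a058_co.Lim2

open Pool.Agent.Lib.MP_21a058_co.Swap
open Pool.Agent.Lib.MP_21a058_co.Lim (SelAll LimAll core)

/-- the iteration with the constants of `Nums` -/
theorem limAll {n p mo A0 B1 M E X Th C9 c H0 c' : ℕ} (hN : Nums n p mo A0 B1 M E X Th C9 c H0)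
    (hc' : c' ≤ H0)
    (hsel : ∀ H, H0 ≤ H → SelAll p (X - 1) Th M Th (A0 * (4 * B1 + 1)) c' H) :
    LimAll M H0 E X (Th + 1) := by
  intro H j s l hH hs hl
  have hX := hN.hX
  have hTh := hN.hTh
  have hH0 := hN.hH0
  obtain ⟨z, hz⟩ : ∃ z, X = z + 1 := ⟨X - 1, by omega⟩
  have hTX : Th + 1 ≤ X := by
    have h1 := hN.hd
    have h2 : 1 * (Th + 1) ≤ 3 * n * (Th + 1) :=
      Nat.mul_le_mul_right _ (by have := hN.hn; omega)
    omega
  have h3 := hsel H hH
  have e0 : X - 1 = z := by omega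
  rw [e0] at h3
  refine core (e := Th + 1) (y := 2 * z + 2 - (Th + 1)) (J := j) (E0 := E) (m := M * H) h3 hTh
    (by omega) (hc'.trans hH) (by omega) (by omega) ?_ ?_ le_rfl ?_ ?_
  · calc 2 * M * (A0 * (4 * B1 + 1)) ≤ Th * Th := hN.heps
      _ ≤ Th * (Th + 1) := Nat.mul_le_mul_left _ (Nat.le_succ _)
  · have h4 := hN.hnear
    have e1 : p * (p + 1) * (X + 1) = p * ((p + 1) * (z + 2)) := by
      subst hz
      ring
    omega
  · have e1 : (E + j * (X + (Th + 1))) * H = j * ((z + 2 + Th) * H) + E * H := by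
      subst hz
      ring
    omega
  · obtain ⟨y, hy⟩ : ∃ y, y + (Th + 1) = 2 * z + 2 := ⟨2 * z + 2 - (Th + 1), by omega⟩
    have e1 : 2 * z + 2 - (Th + 1) = y := by omega
    rw [e1]
    have e2 : (E + 2 * j * X) * H = E * H + j * (y * H) + j * (Th + 1) * H := by
      have : 2 * j * X = j * (y + (Th + 1)) := by
        rw [hy, hz]
        ring
      rw [this]
      ring
    omega

end Pool.Agent.Lib.MP_21a058_co.Lim2
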